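import Pool.Agent.W193.AC.INT
import Pool.Agent.Q184.SF.Main
import Pool.Agent.TH705.RR.Vol

set_option autoImplicit false

/-!
# Boxes dual to the caps of the paraboloid, translated by a Sobolev function of the cap
-/

open MeasureTheory Set
open scoped ENNReal InnerProductSpace

namespace Pool.Agent.Q184.ST

open Pool.Agent.H810R3.Tub Pool.Agent.W193.AC

variable {d : ℕ}

theorem lint_iso {R : ℝ} (hR : 0 < R) {g : Space d → ℝ≥0∞}
    {G : EuclideanSpace ℝ (Fin (d + 1)) → ℝ≥0∞} (hG : Measurable G)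
    (h1 : ∀ y, g (R • y) = G (iso d y)) :
    ∫⁻ y, g y = ENNReal.ofReal (R ^ (d + 1)) * ∫⁻ x, G x := by
  have h2 : ∫⁻ y, G (iso d y) = ∫⁻ x, G x :=
    ((iso d).measurePreserving).lintegral_comp hG
  have h3 := lint_smul (volume : Measure (Space d)) hR.ne' g
  rw [finrank_space] at h3
  rw [← h2, ← lintegral_congr h1, h3, ← mul_assoc, ← ENNReal.ofReal_mul (by positivity)]
  rw [abs_of_pos (by positivity), mul_inv_cancel₀ (by positivity), ENNReal.ofReal_one, one_mul]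

theorem vol_iso {R : ℝ} (hR : 0 < R) (S : Set (Space d)) :
    volume S = ENNReal.ofReal (R ^ (d + 1)) * volume {x | R • (iso d).symm x ∈ S} := by
  have h1 : {x : EuclideanSpace ℝ (Fin (d + 1)) | R • (iso d).symm x ∈ S} =
      (iso d).symm ⁻¹' ((fun y => R • y) ⁻¹' S) := rfl
  have h2 : volume ((iso d).symm ⁻¹' ((fun y => R • y) ⁻¹' S)) = volume ((fun y => R • y) ⁻¹' S) :=
    (iso d).symm.measurePreserving.measure_preimage_emb
      (iso d).symm.toHomeomorph.measurableEmbedding _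
  rw [h1, h2, Measure.addHaar_preimage_smul _ hR.ne', finrank_space, ← mul_assoc,
    ← ENNReal.ofReal_mul (by positivity), abs_of_pos (by positivity),
    mul_inv_cancel₀ (by positivity), ENNReal.ofReal_one, one_mul]

theorem box_sub_cyl (hd : 2 ≤ d) {σ N : ℝ} (hσ : 0 < σ) (hσ1 : σ ≤ 1) (hN : 1 ≤ N)
    {e : Space d} {f : Fin d → Space d}
    (h : Orthonormal ℝ (Fin.cons e f : Fin (d + 1) → Space d)) (a : Space d) :
    box N e f a ⊆ cyl (2 * d / σ * N ^ 2) (σ / 4 / N) a e := by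
  intro y hy
  have hN0 : 0 < N := by linarith
  have hd2 : (2 : ℝ) ≤ d := by exact_mod_cast hd
  refine ⟨?_, ?_⟩
  · have h1 := hy.1
    rw [real_inner_comm] at h1
    refine h1.trans ?_
    have h2 : 1 ≤ 2 * (d : ℝ) / σ := by
      rw [le_div_iff₀ hσ]
      linarith
    have h3 : 0 < N ^ 2 := by positivity
    nlinarith
  · have h1 := box_perp hN h hy
    have h2 : (inner ℝ (y - a) e : ℝ) = inner ℝ e (y - a) := real_inner_comm _ _
    rw [h2]
    refine h1.trans (le_of_eq ?_)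
    field_simp
    ring

/-- Sum of the indicators of the boxes. -/
noncomputable def boxSum {ι : Type} [Fintype ι] (N : ℝ) (ω : ι → Vec d)
    (f : ι → Fin d → Space d) (a : ι → Space d) (y : Space d) : ℝ :=
  ∑ i, (box N (nor (ω i)) (f i) (a i)).indicator (fun _ => (1 : ℝ)) y

/-- the loss -/
noncomputable def X (d : ℕ) (p G N : ℝ) : ℝ :=
  (1 + G) ^ (2 * d * (d + 2) + 1) * (1 + Real.log N) ^ (1 - Pool.Agent.Q184.SF.kap d p)

theorem kap_nonneg (d : ℕ) {p : ℝ} (hp : 0 < p) : 0 ≤ Pool.Agent.Q184.SF.kap d p := by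
  unfold Pool.Agent.Q184.SF.kap
  positivity

theorem kap_le (d : ℕ) {p : ℝ} (hp : 0 < p) : Pool.Agent.Q184.SF.kap d p ≤ 1 := by
  unfold Pool.Agent.Q184.SF.kap
  rw [div_le_one (by positivity)]
  nlinarith [show (0 : ℝ) ≤ d by positivity, mul_nonneg (show (0 : ℝ) ≤ d by positivity) hp.le,
    mul_nonneg (show (0 : ℝ) ≤ (d : ℝ) ^ 2 by positivity) hp.le,
    show (0 : ℝ) ≤ (2 * (d : ℝ) ^ 2 + 2 * d + 1) * (2 * d * (d + 2) + 1) by positivity]

/-- comparison of the losses -/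
theorem loss_cmp {σ N p G : ℝ} (hσ : 0 < σ) (hσ1 : σ ≤ 1) (hN : 1 ≤ N) (hp : 0 < p) (hG : 0 ≤ G) :
    (1 + G) ^ (2 * d * (d + 2) + 1) * (1 + Real.log (1 / (σ / 4 / N))) ^
      (1 - Pool.Agent.Q184.SF.kap d p) ≤ (1 + Real.log (4 / σ)) * X d p G N := by
  have hN0 : 0 < N := by linarith
  have h1 : Real.log (1 / (σ / 4 / N)) = Real.log (4 / σ) + Real.log N := by
    rw [← Real.log_mul (by positivity) hN0.ne']
    congr 1
    field_simp
  have h2 : 0 ≤ Real.log (4 / σ) := Real.log_nonneg (by rw [le_div_iff₀ hσ]; linarith)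
  have h3 : 0 ≤ Real.log N := Real.log_nonneg hN
  have hk := kap_nonneg d hp
  have hk1 := kap_le d hp
  have h4 : 1 + Real.log (1 / (σ / 4 / N)) ≤ (1 + Real.log (4 / σ)) * (1 + Real.log N) := by
    rw [h1]; nlinarith
  have h5 : (1 + Real.log (1 / (σ / 4 / N))) ^ (1 - Pool.Agent.Q184.SF.kap d p) ≤
      (1 + Real.log (4 / σ)) * (1 + Real.log N) ^ (1 - Pool.Agent.Q184.SF.kap d p) := by
    calc (1 + Real.log (1 / (σ / 4 / N))) ^ (1 - Pool.Agent.Q184.SF.kap d p)
        ≤ ((1 + Real.log (4 / σ)) * (1 + Real.log N)) ^ (1 - Pool.Agent.Q184.SF.kap d p) := by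
          apply Real.rpow_le_rpow _ h4 (by linarith)
          rw [h1]; linarith
      _ = (1 + Real.log (4 / σ)) ^ (1 - Pool.Agent.Q184.SF.kap d p) *
          (1 + Real.log N) ^ (1 - Pool.Agent.Q184.SF.kap d p) :=
          Real.mul_rpow (by linarith) (by linarith)
      _ ≤ (1 + Real.log (4 / σ)) * (1 + Real.log N) ^ (1 - Pool.Agent.Q184.SF.kap d p) := by
          gcongr
          calc (1 + Real.log (4 / σ)) ^ (1 - Pool.Agent.Q184.SF.kap d p) ≤
                (1 + Real.log (4 / σ)) ^ (1 : ℝ) :=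
                Real.rpow_le_rpow_of_exponent_le (by linarith) (by linarith)
            _ = _ := Real.rpow_one _
  unfold X
  calc _ ≤ (1 + G) ^ (2 * d * (d + 2) + 1) * ((1 + Real.log (4 / σ)) *
        (1 + Real.log N) ^ (1 - Pool.Agent.Q184.SF.kap d p)) := by gcongr
    _ = _ := by ring

/-- the tubes which contain the rescaled boxes -/
theorem setup (hd : 2 ≤ d) {σ N : ℝ} (hσ : 0 < σ) (hσ1 : σ ≤ 1) (hN : 1 ≤ N) {ι : Type} [Fintype ι]
    {ω : ι → Vec d} {f : ι → Fin d → Space d} (hω : ∀ i, ‖ω i‖ ≤ 1)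
    (hsep : ∀ i j, i ≠ j → σ / N ≤ ‖ω i - ω j‖)
    (hf : ∀ i, Orthonormal ℝ (Fin.cons (nor (ω i)) (f i) : Fin (d + 1) → Space d))
    {a : ι → Space d} {g : ι → ℝ}
    (hg : ∀ i j, ‖a i - a j‖ ≤ N ^ 2 * ((g i + g j) * ‖ω i - ω j‖)) :
    (∀ i, ‖iso d (nor (ω i))‖ = 1) ∧
    (∀ i j, i ≠ j → σ / 4 / N ≤ ‖iso d (nor (ω i)) - iso d (nor (ω j))‖) ∧
    ∀ i j, ‖iso d ((2 * d / σ * N ^ 2)⁻¹ • a i) - iso d ((2 * d / σ * N ^ 2)⁻¹ • a j)‖ ≤
      (g i + g j) * ‖iso d (nor (ω i)) - iso d (nor (ω j))‖ := by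
  have hN0 : 0 < N := by linarith
  have hd2 : (2 : ℝ) ≤ d := by exact_mod_cast hd
  refine ⟨fun i => ?_, fun i j hij => ?_, fun i j => ?_⟩
  · rw [LinearIsometryEquiv.norm_map]
    exact norm_e (hf i)
  · rw [← map_sub, LinearIsometryEquiv.norm_map]
    have h3 := nor_sep (ω i) (ω j) (hω i) (hω j)
    have h4 := hsep i j hij
    have h5 : σ / 4 / N = σ / N / 4 := by ring
    rw [h5]
    linarith
  · rw [← map_sub, ← map_sub, LinearIsometryEquiv.norm_map, LinearIsometryEquiv.norm_map,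
      ← smul_sub, norm_smul, norm_inv, Real.norm_of_nonneg (by positivity)]
    have h3 := nor_sep (ω i) (ω j) (hω i) (hω j)
    have h4 := hg i j
    by_cases hij : ω i = ω j
    · rw [hij, sub_self, norm_zero, mul_zero]
      rw [hij, sub_self, norm_zero, mul_zero, mul_zero] at h4
      have h5 : ‖a i - a j‖ = 0 := le_antisymm h4 (norm_nonneg _)
      rw [h5, mul_zero]
    · have h6 : 0 < ‖ω i - ω j‖ := norm_pos_iff.2 (sub_ne_zero.2 hij)
      have h7 : 0 ≤ g i + g j := by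
        have h8 : 0 ≤ N ^ 2 * ((g i + g j) * ‖ω i - ω j‖) := (norm_nonneg _).trans h4
        have h9 : 0 ≤ (g i + g j) * ‖ω i - ω j‖ := by
          by_contra hcon
          push Not at hcon
          have : 0 < N ^ 2 := by positivity
          nlinarith
        by_contra hcon
        push Not at hcon
        nlinarith
      rw [inv_mul_le_iff₀ (by positivity)]
      calc ‖a i - a j‖ ≤ N ^ 2 * ((g i + g j) * ‖ω i - ω j‖) := h4
        _ ≤ N ^ 2 * ((g i + g j) * (4 * ‖nor (ω i) - nor (ω j)‖)) := by gcongr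
        _ = 4 * (N ^ 2 * ((g i + g j) * ‖nor (ω i) - nor (ω j)‖)) := by ring
        _ ≤ (2 * d / σ) * (N ^ 2 * ((g i + g j) * ‖nor (ω i) - nor (ω j)‖)) := by
            have h10 : (4 : ℝ) ≤ 2 * d / σ := by
              rw [le_div_iff₀ hσ]
              nlinarith
            gcongr
        _ = _ := by ring

/-- the number of the caps -/
theorem card_le (hd : 2 ≤ d) : ∃ K : ℝ, 0 < K ∧ ∀ (σ N : ℝ), 0 < σ → σ ≤ 1 → 1 ≤ N →
    ∀ (ι : Type) [Fintype ι] (ω : ι → Vec d), (∀ i, ‖ω i‖ ≤ 1) →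
    (∀ i j, i ≠ j → σ / N ≤ ‖ω i - ω j‖) → (Fintype.card ι : ℝ) ≤ K * (N / σ) ^ d := by
  obtain ⟨K, hK, hc⟩ := Pool.Agent.TH705.RR.count (n := d + 1) (by omega)
  refine ⟨K * 4 ^ d, by positivity, ?_⟩
  intro σ N hσ hσ1 hN ι _ ω hω hsep
  have hN0 : 0 < N := by linarith
  have h1 : ∀ i, ‖iso d (nor (ω i))‖ = 1 := fun i => by
    rw [LinearIsometryEquiv.norm_map]
    exact norm_dir _
  have h2 : ∀ i j, i ≠ j → σ / 4 / N ≤ ‖iso d (nor (ω i)) - iso d (nor (ω j))‖ := by
    intro i j hij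
    rw [← map_sub, LinearIsometryEquiv.norm_map]
    have h3 := nor_sep (ω i) (ω j) (hω i) (hω j)
    have h4 := hsep i j hij
    have h5 : σ / 4 / N = σ / N / 4 := by ring
    rw [h5]
    linarith
  have hδ0 : 0 < σ / 4 / N := by positivity
  have hδ1 : σ / 4 / N < 1 := by
    rw [div_lt_one hN0]
    linarith
  have h3 := hc (σ / 4 / N) hδ0 hδ1 (fun i => iso d (nor (ω i))) h1 h2
    (iso d (nor (0 : Vec d))) (by rw [LinearIsometryEquiv.norm_map]; exact norm_dir _)
    Finset.univ 1 hδ1.le (fun j _ => Pool.Agent.TH705.RR.sn_le_one _ _)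
  rw [Finset.card_univ, Nat.add_sub_cancel] at h3
  refine h3.trans (le_of_eq ?_)
  have h4 : 1 / (σ / 4 / N) = 4 * (N / σ) := by field_simp
  rw [h4, mul_pow]
  ring

/-- **Main theorem** -/
theorem main (hd : 2 ≤ d) : ∃ C : ℝ → ℝ, (∀ σ, 0 < C σ) ∧ ∀ (σ N : ℝ), 0 < σ → σ ≤ 1 → 1 ≤ N →
    ∀ (ι : Type) [Fintype ι] (ω : ι → Vec d) (f : ι → Fin d → Space d), (∀ i, ‖ω i‖ ≤ 1) →
    (∀ i j, i ≠ j → σ / N ≤ ‖ω i - ω j‖) →
    (∀ i, Orthonormal ℝ (Fin.cons (nor (ω i)) (f i) : Fin (d + 1) → Space d)) →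
    ∀ (a : ι → Space d) (g : ι → ℝ) (p G : ℝ), 0 < p → 0 ≤ G →
    (∀ i j, ‖a i - a j‖ ≤ N ^ 2 * ((g i + g j) * ‖ω i - ω j‖)) →
    (∀ l : ℝ, 0 < l → (N ^ d)⁻¹ * (Nat.card {i // l < g i} : ℝ) ≤ (G / l) ^ p) →
    ∫⁻ y, ENNReal.ofReal (boxSum N ω f a y * Real.posLog (boxSum N ω f a y)) ≤
      ENNReal.ofReal (C σ * X d p G N * N ^ (2 * d + 2)) ∧
    (∀ (γ : ℝ) (E : Set (Space d)), 0 < γ →
      ENNReal.ofReal (γ * N ^ (2 * d + 2)) ≤ ∑ i, volume (box N (nor (ω i)) (f i) (a i) ∩ E) →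
      ENNReal.ofReal (Real.exp (-(C σ / γ * X d p G N)) * N ^ (2 * d + 2)) ≤ volume E) ∧
    ∀ (γ : ℝ) (J : Finset ι), 0 < γ → γ * N ^ d ≤ J.card →
      ENNReal.ofReal (Real.exp (-(C σ / γ * X d p G N)) * (J.card * N ^ (d + 2))) ≤
        volume (⋃ i ∈ J, box N (nor (ω i)) (f i) (a i)) := by
  classical
  obtain ⟨C1, hC1, h1⟩ := Pool.Agent.Q184.SF.main (d := d) (by omega)
  obtain ⟨C2, hC2, h2⟩ := Pool.Agent.Q184.SF.main_level (d := d) (by omega)
  obtain ⟨K, hK, hcard⟩ := card_le hd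
  have hd2 : (2 : ℝ) ≤ d := by exact_mod_cast hd
  -- the constants
  set A1 : ℝ → ℝ := fun σ => (2 * d / σ) ^ (d + 1) * C1 * (1 + Real.log (4 / σ)) with hA1
  set A2 : ℝ → ℝ := fun σ => (2 * d / σ) ^ (d + 1) * C2 * (1 + Real.log (4 / σ)) with hA2
  set A3 : ℝ → ℝ := fun σ => K / σ ^ d * (K / σ ^ d) with hA3
  refine ⟨fun σ => |A1 σ| + |A2 σ| + |A3 σ| + 1, fun σ => by positivity, ?_⟩
  intro σ N hσ hσ1 hN ι _ ω f hω hsep hf a g p G hp hG hg hw
  have hN0 : 0 < N := by linarith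
  set R : ℝ := 2 * d / σ * N ^ 2 with hR
  set δ : ℝ := σ / 4 / N with hδ
  have hR0 : 0 < R := by positivity
  have hδ0 : 0 < δ := by positivity
  have hδ1 : δ ≤ 1 := by
    rw [hδ, div_le_one hN0]
    linarith
  obtain ⟨he, hes, hgs⟩ := setup hd hσ hσ1 hN hω hsep hf hg
  set e' : ι → EuclideanSpace ℝ (Fin (d + 1)) := fun i => iso d (nor (ω i)) with he'
  set a' : ι → EuclideanSpace ℝ (Fin (d + 1)) := fun i => iso d (R⁻¹ • a i) with ha'
  have hw' : ∀ l : ℝ, 0 < l → δ ^ d * (Fintype.card {i // l < g i} : ℝ) ≤ (G / l) ^ p := by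
    intro l hl
    have h3 := hw l hl
    rw [Nat.card_eq_fintype_card] at h3
    refine le_trans ?_ h3
    gcongr
    rw [hδ, div_pow, div_eq_mul_inv]
    have : (σ / 4) ^ d ≤ 1 := pow_le_one₀ (by positivity) (by linarith)
    calc (σ / 4) ^ d * (N ^ d)⁻¹ ≤ 1 * (N ^ d)⁻¹ := by gcongr
      _ = _ := one_mul _
  have hlogσ : 0 ≤ Real.log (4 / σ) := Real.log_nonneg (by rw [le_div_iff₀ hσ]; linarith)
  have hlogN : 0 ≤ Real.log N := Real.log_nonneg hN
  have hX0 : 0 < X d p G N := by unfold X; positivity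
  have hX1 : 1 ≤ X d p G N := by
    unfold X
    have i1 : (1 : ℝ) ≤ (1 + G) ^ (2 * d * (d + 2) + 1) := one_le_pow₀ (by linarith)
    have i2 : 1 ≤ (1 + Real.log N) ^ (1 - Pool.Agent.Q184.SF.kap d p) :=
      Real.one_le_rpow (by linarith) (by linarith [kap_le d hp])
    nlinarith
  set Y : ℝ := (1 + G) ^ (2 * d * (d + 2) + 1) *
    (1 + Real.log (1 / δ)) ^ (1 - Pool.Agent.Q184.SF.kap d p) with hY
  have hYX : Y ≤ (1 + Real.log (4 / σ)) * X d p G N := loss_cmp hσ hσ1 hN hp hG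
  have hRd : R ^ (d + 1) = (2 * d / σ) ^ (d + 1) * N ^ (2 * d + 2) := by
    rw [hR, mul_pow, ← pow_mul]
    congr 2
  have hA1p : 0 < A1 σ := by rw [hA1]; positivity
  have hA2p : 0 < A2 σ := by rw [hA2]; positivity
  have hA3p : 0 < A3 σ := by rw [hA3]; positivity
  beta_reduce
  set C : ℝ := |A1 σ| + |A2 σ| + |A3 σ| + 1 with hC
  have hCA1 : A1 σ ≤ C := by
    have := le_abs_self (A1 σ); have := abs_nonneg (A2 σ); have := abs_nonneg (A3 σ)
    rw [hC]; linarith
  have hCA23 : A2 σ + A3 σ ≤ C := by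
    have := abs_nonneg (A1 σ); have := le_abs_self (A2 σ); have := le_abs_self (A3 σ)
    rw [hC]; linarith
  have hA3e : A3 σ = K / σ ^ d * (K / σ ^ d) := rfl
  have hA1e : A1 σ = (2 * d / σ) ^ (d + 1) * C1 * (1 + Real.log (4 / σ)) := rfl
  have hA2e : A2 σ = (2 * d / σ) ^ (d + 1) * C2 * (1 + Real.log (4 / σ)) := rfl
  clear_value C A1 A2 A3
  -- membership in cylinders and tubes
  have hmem : ∀ i y, R • y ∈ cyl R δ (a i) (nor (ω i)) ↔
      iso d y ∈ Pool.Agent.W769.Iso.tube δ (e' i) (a' i) := fun i y => cyl_iff hR0 _ _ _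
  -- part (sets)
  have hsets : ∀ (γ : ℝ) (E : Set (Space d)), 0 < γ →
      ENNReal.ofReal (γ * N ^ (2 * d + 2)) ≤ ∑ i, volume (box N (nor (ω i)) (f i) (a i) ∩ E) →
      ENNReal.ofReal (Real.exp (-(A2 σ / γ * X d p G N)) * N ^ (2 * d + 2)) ≤ volume E := by
    intro γ E hγ hint
    set E' : Set (EuclideanSpace ℝ (Fin (d + 1))) := {x | R • (iso d).symm x ∈ E} with hE'
    have h3 : ∀ i, volume (box N (nor (ω i)) (f i) (a i) ∩ E) ≤ ENNReal.ofReal (R ^ (d + 1)) *
        volume (Pool.Agent.W769.Iso.tube δ (e' i) (a' i) ∩ E') := by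
      intro i
      rw [vol_iso hR0]
      gcongr
      rintro x ⟨hx1, hx2⟩
      refine ⟨?_, hx2⟩
      have h4 := box_sub_cyl hd hσ hσ1 hN (hf i) (a i) hx1
      have h5 := (hmem i _).1 h4
      rwa [LinearIsometryEquiv.apply_symm_apply] at h5
    set γ' : ℝ := γ / (2 * d / σ) ^ (d + 1) with hγ'
    have hγ'0 : 0 < γ' := by positivity
    have h4 : ENNReal.ofReal γ' ≤
        ∑ i, volume (Pool.Agent.W769.Iso.tube δ (e' i) (a' i) ∩ E') := by
      have h5 : ENNReal.ofReal (R ^ (d + 1)) * ENNReal.ofReal γ' ≤ ENNReal.ofReal (R ^ (d + 1)) *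
          ∑ i, volume (Pool.Agent.W769.Iso.tube δ (e' i) (a' i) ∩ E') := by
        calc ENNReal.ofReal (R ^ (d + 1)) * ENNReal.ofReal γ' =
              ENNReal.ofReal (γ * N ^ (2 * d + 2)) := by
              rw [← ENNReal.ofReal_mul (by positivity)]
              congr 1
              rw [hRd, hγ']
              field_simp
          _ ≤ ∑ i, volume (box N (nor (ω i)) (f i) (a i) ∩ E) := hint
          _ ≤ ∑ i, ENNReal.ofReal (R ^ (d + 1)) *
              volume (Pool.Agent.W769.Iso.tube δ (e' i) (a' i) ∩ E') :=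
              Finset.sum_le_sum fun i _ => h3 i
          _ = _ := by rw [Finset.mul_sum]
      exact (ENNReal.mul_le_mul_iff_right (ENNReal.ofReal_pos.2 (by positivity)).ne'
        ENNReal.ofReal_ne_top).1 h5
    have h5 := h2 ι e' a' g p G δ hp hG hδ0 hδ1 he hes hgs hw' γ' E' hγ'0 h4
    rw [vol_iso hR0 E]
    refine le_trans ?_ (mul_le_mul' le_rfl h5)
    rw [← ENNReal.ofReal_mul (by positivity)]
    apply ENNReal.ofReal_le_ofReal
    have h6 : C2 / γ' * Y ≤ A2 σ / γ * X d p G N := by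
      calc C2 / γ' * Y ≤ C2 / γ' * ((1 + Real.log (4 / σ)) * X d p G N) := by gcongr
        _ = _ := by
            rw [hγ', hA2e]
            field_simp
    have h7 : (1 : ℝ) ≤ (2 * d / σ) ^ (d + 1) := by
      apply one_le_pow₀
      rw [le_div_iff₀ hσ]
      linarith
    calc Real.exp (-(A2 σ / γ * X d p G N)) * N ^ (2 * d + 2) ≤
          Real.exp (-(C2 / γ' * Y)) * N ^ (2 * d + 2) := by
          gcongr
      _ = 1 * N ^ (2 * d + 2) * Real.exp (-(C2 / γ' * Y)) := by ring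
      _ ≤ (2 * d / σ) ^ (d + 1) * N ^ (2 * d + 2) * Real.exp (-(C2 / γ' * Y)) := by gcongr
      _ = _ := by rw [hRd]
  refine ⟨?_, ?_, ?_⟩
  · -- entropy
    have h3 := h1 ι e' a' g p G δ hp hG hδ0 hδ1 he hes hgs hw'
    set g1 : Space d → ℝ≥0∞ := fun y => ENNReal.ofReal (Pool.Agent.W769.Ent.Ph
      (∑ i, (cyl R δ (a i) (nor (ω i))).indicator (fun _ => (1 : ℝ)) y)) with hg1
    have h4 : ∀ y, ENNReal.ofReal (boxSum N ω f a y * Real.posLog (boxSum N ω f a y)) ≤ g1 y := by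
      intro y
      apply ENNReal.ofReal_le_ofReal
      have h5 : 0 ≤ boxSum N ω f a y :=
        Finset.sum_nonneg fun _ _ => indicator_nonneg (fun _ _ => zero_le_one) _
      have h6 : boxSum N ω f a y ≤
          ∑ i, (cyl R δ (a i) (nor (ω i))).indicator (fun _ => (1 : ℝ)) y := by
        refine Finset.sum_le_sum fun i _ => ?_
        exact indicator_le_indicator_of_subset (box_sub_cyl hd hσ hσ1 hN (hf i) _)
          (fun _ => zero_le_one) y
      calc boxSum N ω f a y * Real.posLog (boxSum N ω f a y) ≤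
            Pool.Agent.W769.Ent.Ph (boxSum N ω f a y) := by
            unfold Pool.Agent.W769.Ent.Ph
            nlinarith
        _ ≤ _ := Pool.Agent.W769.Ent.Ph_mono h5 h6
    have h5 : ∀ y, g1 (R • y) = ENNReal.ofReal (Pool.Agent.W769.Ent.Ph
        (Pool.Agent.W769.Ent.Nt e' a' δ (iso d y))) := by
      intro y
      simp only [hg1]
      unfold Pool.Agent.W769.Ent.Nt
      congr 2
      refine Finset.sum_congr rfl fun i _ => ?_
      by_cases hy : R • y ∈ cyl R δ (a i) (nor (ω i))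
      · rw [indicator_of_mem hy, indicator_of_mem ((hmem i y).1 hy)]
      · rw [indicator_of_notMem hy, indicator_of_notMem (fun h => hy ((hmem i y).2 h))]
    have hPm : Measurable Pool.Agent.W769.Ent.Ph := by
      unfold Pool.Agent.W769.Ent.Ph
      exact measurable_id.mul (measurable_const.add (by unfold Real.posLog; fun_prop))
    have h6 := lint_iso hR0 (g := g1)
      (G := fun x => ENNReal.ofReal (Pool.Agent.W769.Ent.Ph (Pool.Agent.W769.Ent.Nt e' a' δ x)))
      (hPm.comp (Pool.Agent.W769.Ent.Nt_meas e' a' δ)).ennreal_ofReal h5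
    calc _ ≤ ∫⁻ y, g1 y := lintegral_mono h4
      _ = _ := h6
      _ ≤ ENNReal.ofReal (R ^ (d + 1)) * ENNReal.ofReal (C1 * Y) := by gcongr
      _ ≤ _ := by
          rw [← ENNReal.ofReal_mul (by positivity)]
          apply ENNReal.ofReal_le_ofReal
          calc R ^ (d + 1) * (C1 * Y) ≤ R ^ (d + 1) * (C1 * ((1 + Real.log (4 / σ)) * X d p G N)) := by
                gcongr
            _ = A1 σ * X d p G N * N ^ (2 * d + 2) := by
                rw [hRd, hA1e]; ring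
            _ ≤ C * X d p G N * N ^ (2 * d + 2) := by gcongr
  · intro γ E hγ hint
    refine le_trans (ENNReal.ofReal_le_ofReal ?_) (hsets γ E hγ hint)
    gcongr
    linarith
  · intro γ J hγ hJ
    set U : Set (Space d) := ⋃ i ∈ J, box N (nor (ω i)) (f i) (a i) with hU
    have h3 : ENNReal.ofReal (γ * N ^ (2 * d + 2)) ≤
        ∑ i, volume (box N (nor (ω i)) (f i) (a i) ∩ U) := by
      calc ENNReal.ofReal (γ * N ^ (2 * d + 2)) ≤ ENNReal.ofReal (J.card * N ^ (d + 2)) := by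
            apply ENNReal.ofReal_le_ofReal
            calc γ * N ^ (2 * d + 2) = (γ * N ^ d) * N ^ (d + 2) := by ring
              _ ≤ J.card * N ^ (d + 2) := by gcongr
        _ = ∑ _i ∈ J, ENNReal.ofReal (N ^ (d + 2)) := by
            rw [Finset.sum_const, nsmul_eq_mul, ENNReal.ofReal_mul (by positivity),
              ENNReal.ofReal_natCast]
        _ ≤ ∑ i ∈ J, volume (box N (nor (ω i)) (f i) (a i) ∩ U) := by
            refine Finset.sum_le_sum fun i hi => ?_
            have h4 : box N (nor (ω i)) (f i) (a i) ∩ U = box N (nor (ω i)) (f i) (a i) := by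
              rw [inter_eq_left, hU]
              exact subset_biUnion_of_mem (u := fun i => box N (nor (ω i)) (f i) (a i))
                (Finset.mem_coe.2 hi)
            rw [h4, vol_box hN (hf i)]
        _ ≤ _ := Finset.sum_le_sum_of_subset (Finset.subset_univ J)
    have h4 := hsets γ U hγ h3
    refine le_trans (ENNReal.ofReal_le_ofReal ?_) h4
    -- the number of the boxes
    have h5 : (J.card : ℝ) ≤ K / σ ^ d * N ^ d := by
      have h6 := hcard σ N hσ hσ1 hN ι ω hω hsep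
      have h7 : (J.card : ℝ) ≤ Fintype.card ι := by exact_mod_cast Finset.card_le_univ J
      calc (J.card : ℝ) ≤ K * (N / σ) ^ d := h7.trans h6
        _ = _ := by rw [div_pow]; ring
    obtain ⟨M, hM⟩ : ∃ M : ℝ, M = K / σ ^ d := ⟨_, rfl⟩
    rw [← hM] at h5 hA3e
    have hM0 : 0 < M := by rw [hM]; positivity
    have hγM : γ ≤ M := by
      have hNd : 0 < N ^ d := by positivity
      have h6 : γ * N ^ d ≤ M * N ^ d := hJ.trans h5
      exact le_of_mul_le_mul_right h6 hNd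
    have h8 : M ≤ Real.exp (A3 σ / γ * X d p G N) := by
      have h10 : M ≤ A3 σ / γ := by
        rw [le_div_iff₀ hγ, hA3e]
        gcongr
      have h11 : A3 σ / γ ≤ A3 σ / γ * X d p G N := by
        exact le_mul_of_one_le_right (by positivity) hX1
      have h12 := Real.add_one_le_exp (A3 σ / γ * X d p G N)
      linarith
    calc Real.exp (-(C / γ * X d p G N)) * (J.card * N ^ (d + 2)) ≤
          Real.exp (-((A2 σ + A3 σ) / γ * X d p G N)) * ((M * N ^ d) * N ^ (d + 2)) := by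
          gcongr
      _ = Real.exp (-(A2 σ / γ * X d p G N)) *
          (Real.exp (-(A3 σ / γ * X d p G N)) * M) * N ^ (2 * d + 2) := by
          have h9 : -((A2 σ + A3 σ) / γ * X d p G N) = -(A2 σ / γ * X d p G N) +
              -(A3 σ / γ * X d p G N) := by ring
          rw [h9, Real.exp_add]
          ring
      _ ≤ Real.exp (-(A2 σ / γ * X d p G N)) * 1 * N ^ (2 * d + 2) := by
          gcongr
          rw [Real.exp_neg, inv_mul_le_iff₀ (Real.exp_pos _), mul_one]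
          exact h8
      _ = _ := by ring

end Pool.Agent.Q184.ST
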