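import Pool.Agent.Q184.ST.Main
import Pool.Agent.Results.MP_850839_an.NetFamilies

set_option autoImplicit false

/-!
# Boxes dual to a full family of caps, coarsely Lipschitz translates
-/

open MeasureTheory Set
open scoped ENNReal InnerProductSpace

namespace Pool.Agent.Q184.ST

open Pool.Agent.H810R3.Tub Pool.Agent.W193.AC

variable {d : ℕ}

theorem cyl_sub_box {N : ℝ} (hN : 1 ≤ N) {e : Space d} {f : Fin d → Space d}
    (h : Orthonormal ℝ (Fin.cons e f : Fin (d + 1) → Space d)) (a : Space d) :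
    cyl (N ^ 2) (1 / (2 * N)) a e ⊆ box N e f a := by
  have hN0 : 0 < N := by linarith
  rintro y ⟨h1, h2⟩
  rw [real_inner_comm] at h1 h2
  refine ⟨h1, fun j => ?_⟩
  have h3 : (inner ℝ (f j) (y - a) : ℝ) =
      inner ℝ (f j) ((y - a) - (inner ℝ e (y - a) : ℝ) • e) := by
    have h4 : (inner ℝ (f j) e : ℝ) = 0 := by
      rw [real_inner_comm]
      exact inner_ef h j
    have h6 := inner_sub_right (𝕜 := ℝ) (f j) (y - a) ((inner ℝ e (y - a) : ℝ) • e)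
    rw [h6, inner_smul_right, h4]; ring
  have h5 : ‖f j‖ = 1 := by
    have := h.1 j.succ
    simpa using this
  rw [h3]
  refine (abs_real_inner_le_norm _ _).trans ?_
  rw [h5, one_mul]
  refine h2.trans (le_of_eq ?_)
  field_simp

theorem exists_cap {u : Space d} (hu : ‖u‖ = 1) (h : ‖u - nor (0 : Vec d)‖ ≤ 1 / 2) :
    ∃ w : Vec d, ‖w‖ ≤ 1 ∧ nor w = u := by
  have h0 : (nor (0 : Vec d)) = WithLp.toLp 2 ((0 : Vec d), (1 : ℝ)) := by
    unfold nor dir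
    simp
  rw [h0] at h
  have h1 : ‖u - WithLp.toLp 2 ((0 : Vec d), (1 : ℝ))‖ ^ 2 = ‖u.fst‖ ^ 2 + (u.snd - 1) ^ 2 := by
    rw [norm_space_sq]
    simp
  have h2 : ‖u‖ ^ 2 = ‖u.fst‖ ^ 2 + u.snd ^ 2 := norm_space_sq u
  rw [hu] at h2
  have h3 : ‖u.fst‖ ^ 2 + (u.snd - 1) ^ 2 ≤ (1 / 2) ^ 2 := by
    rw [← h1]
    gcongr
  have h4 : 7 / 8 ≤ u.snd := by nlinarith
  have h5 : ‖u.fst‖ ≤ 1 / 2 := by
    have : ‖u.fst‖ ^ 2 ≤ (1 / 2) ^ 2 := by nlinarith [sq_nonneg (u.snd - 1)]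
    exact abs_le_of_sq_le_sq' this (by norm_num) |>.2
  have ht : 0 < u.snd := by linarith
  refine ⟨(-(2 : ℝ))⁻¹ • (u.snd)⁻¹ • u.fst, ?_, ?_⟩
  · rw [norm_smul, norm_smul, norm_inv, norm_inv, norm_neg, Real.norm_of_nonneg ht.le]
    have h6 : ‖(2 : ℝ)‖ = 2 := by norm_num
    rw [h6]
    have h7 : (u.snd)⁻¹ ≤ 8 / 7 := by
      rw [inv_le_comm₀ ht (by norm_num)]
      linarith
    have h8 : 0 ≤ (u.snd)⁻¹ := by positivity
    have h9 : (u.snd)⁻¹ * ‖u.fst‖ ≤ 8 / 7 * (1 / 2) := by gcongr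
    have h10 : (2 : ℝ)⁻¹ * ((u.snd)⁻¹ * ‖u.fst‖) ≤ (2 : ℝ)⁻¹ * (8 / 7 * (1 / 2)) := by gcongr
    refine h10.trans (by norm_num)
  · unfold nor
    rw [smul_smul, mul_inv_cancel₀ (by norm_num), one_smul]
    unfold dir
    have h6 : 1 + ‖(u.snd)⁻¹ • u.fst‖ ^ 2 = (u.snd⁻¹) ^ 2 := by
      rw [norm_smul, Real.norm_of_nonneg (by positivity), mul_pow]
      have h8 : (u.snd⁻¹) ^ 2 * u.snd ^ 2 = 1 := by
        rw [← mul_pow, inv_mul_cancel₀ ht.ne', one_pow]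
      calc 1 + (u.snd⁻¹) ^ 2 * ‖u.fst‖ ^ 2 =
          (u.snd⁻¹) ^ 2 * u.snd ^ 2 + (u.snd⁻¹) ^ 2 * ‖u.fst‖ ^ 2 := by rw [h8]
        _ = (u.snd⁻¹) ^ 2 * (‖u.fst‖ ^ 2 + u.snd ^ 2) := by ring
        _ = (u.snd⁻¹) ^ 2 := by rw [← h2]; ring
    rw [h6, Real.sqrt_sq (by positivity), inv_inv]
    apply WithLp.ofLp_injective
    refine Prod.ext ?_ ?_
    · show u.snd • (u.snd)⁻¹ • u.fst = u.fst
      rw [smul_smul, mul_inv_cancel₀ ht.ne', one_smul]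
    · show u.snd * 1 = u.snd
      rw [mul_one]

/-- **Main theorem** -/
theorem net (hd : 2 ≤ d) : ∃ c : ℝ, 0 < c ∧ ∀ (σ S L N : ℝ), 0 < σ → σ ≤ 1 → 1 ≤ S → 0 ≤ L → 1 ≤ N →
    ∀ (ι : Type) [Fintype ι] (ω : ι → Vec d) (f : ι → Fin d → Space d), (∀ i, ‖ω i‖ ≤ 1) →
    (∀ i j, i ≠ j → σ / N ≤ ‖ω i - ω j‖) → (∀ w : Vec d, ‖w‖ ≤ 1 → ∃ i, ‖w - ω i‖ ≤ S / N) →
    (∀ i, Orthonormal ℝ (Fin.cons (nor (ω i)) (f i) : Fin (d + 1) → Space d)) →
    ∀ (a : ι → Space d), (∀ i j, ‖a i - a j‖ ≤ L * (N ^ 2 * ‖ω i - ω j‖ + S * N)) →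
      ENNReal.ofReal (c * (σ / S) ^ d * ((1 + L) ^ (d * (d + 1)))⁻¹) *
          ∑ i, volume (box N (nor (ω i)) (f i) (a i)) ≤
        volume (⋃ i, box N (nor (ω i)) (f i) (a i)) := by
  obtain ⟨c, hc, h⟩ := Pool.Agent.Results.MP_850839_an.NetFamilies.result d hd
  obtain ⟨K, hK, hcard⟩ := card_le hd
  refine ⟨c * (1 / 2) ^ d * (4 ^ d)⁻¹ * (4 ^ (d * (d + 1)))⁻¹ / K, by positivity, ?_⟩
  intro σ S L N hσ hσ1 hS hL hN ι _ ω f hω hsep hnet hf a ha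
  have hN0 : 0 < N := by linarith
  have hS0 : 0 < S := by linarith
  set δ : ℝ := 1 / (2 * N) with hδ
  set R : ℝ := N ^ 2 with hR
  have hδ0 : 0 < δ := by positivity
  have hR0 : 0 < R := by positivity
  have hδ1 : δ < 1 := by
    rw [hδ, div_lt_one (by positivity)]
    linarith
  have h1 := h ι (fun i => iso d (nor (ω i))) (fun i => iso d (R⁻¹ • a i)) (iso d (nor 0)) (1 / 2)
    (4 * L) (4 * S) δ (by norm_num) (by norm_num) (by positivity) (by linarith) hδ0 hδ1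
    (by rw [LinearIsometryEquiv.norm_map]; exact norm_dir _)
    (fun i => by rw [LinearIsometryEquiv.norm_map]; exact norm_dir _) ?_ ?_
  · -- volumes
    have h2 : volume (⋃ i, {y : EuclideanSpace ℝ (Fin (d + 1)) |
        |⟪y - iso d (R⁻¹ • a i), iso d (nor (ω i))⟫_ℝ| ≤ 1 / 2 ∧
        ‖(y - iso d (R⁻¹ • a i)) - ⟪y - iso d (R⁻¹ • a i), iso d (nor (ω i))⟫_ℝ •
          iso d (nor (ω i))‖ ≤ δ}) ≤
        volume {x | R • (iso d).symm x ∈ ⋃ i, box N (nor (ω i)) (f i) (a i)} := by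
      refine measure_mono ?_
      intro x hx
      obtain ⟨i, hi⟩ := mem_iUnion.1 hx
      refine mem_iUnion.2 ⟨i, cyl_sub_box hN (hf i) (a i) ?_⟩
      rw [cyl_iff hR0, LinearIsometryEquiv.apply_symm_apply]
      exact hi
    rw [vol_iso hR0 (⋃ i, box N (nor (ω i)) (f i) (a i))]
    refine le_trans ?_ (mul_le_mul' le_rfl (h1.trans h2))
    have h3 : ∑ i, volume (box N (nor (ω i)) (f i) (a i)) =
        ENNReal.ofReal (Fintype.card ι * N ^ (d + 2)) := by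
      rw [Finset.sum_congr rfl fun i _ => vol_box hN (hf i) (a i), Finset.sum_const,
        Finset.card_univ, nsmul_eq_mul, ENNReal.ofReal_mul (by positivity), ENNReal.ofReal_natCast]
    rw [h3, ← ENNReal.ofReal_mul (by positivity), ← ENNReal.ofReal_mul (by positivity)]
    apply ENNReal.ofReal_le_ofReal
    have h4 := hcard σ N hσ hσ1 hN ι ω hω hsep
    have h5 : (1 + 4 * L) ^ (d * (d + 1)) ≤ 4 ^ (d * (d + 1)) * (1 + L) ^ (d * (d + 1)) := by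
      rw [← mul_pow]
      gcongr
      linarith
    have h6 : (4 ^ (d * (d + 1)))⁻¹ * ((1 + L) ^ (d * (d + 1)))⁻¹ ≤
        ((1 + 4 * L) ^ (d * (d + 1)))⁻¹ := by
      rw [← mul_inv]
      gcongr
    calc c * (1 / 2) ^ d * (4 ^ d)⁻¹ * (4 ^ (d * (d + 1)))⁻¹ / K * (σ / S) ^ d *
          ((1 + L) ^ (d * (d + 1)))⁻¹ * (Fintype.card ι * N ^ (d + 2))
        ≤ c * (1 / 2) ^ d * (4 ^ d)⁻¹ * (4 ^ (d * (d + 1)))⁻¹ / K * (σ / S) ^ d *
          ((1 + L) ^ (d * (d + 1)))⁻¹ * (K * (N / σ) ^ d * N ^ (d + 2)) := by gcongr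
      _ = N ^ (2 * (d + 1)) * (c * (1 / 2) ^ d * ((4 * S) ^ d)⁻¹ *
          ((4 ^ (d * (d + 1)))⁻¹ * ((1 + L) ^ (d * (d + 1)))⁻¹)) := by
          rw [div_pow σ S, div_pow N σ, mul_pow, mul_inv]
          have e1 : N ^ (2 * (d + 1)) = N ^ d * N ^ (d + 2) := by ring
          rw [e1]
          have hσd : σ ^ d ≠ 0 := by positivity
          field_simp
      _ ≤ N ^ (2 * (d + 1)) * (c * (1 / 2) ^ d * ((4 * S) ^ d)⁻¹ *
          ((1 + 4 * L) ^ (d * (d + 1)))⁻¹) := by gcongr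
      _ = _ := by rw [hR, ← pow_mul]
  · -- the net
    intro u hu hu2
    obtain ⟨v, hv⟩ : ∃ v : Space d, v = (iso d).symm u := ⟨_, rfl⟩
    have hvu : iso d v = u := by rw [hv, LinearIsometryEquiv.apply_symm_apply]
    have hv1 : ‖v‖ = 1 := by rw [hv, LinearIsometryEquiv.norm_map, hu]
    have hv2 : ‖v - nor (0 : Vec d)‖ ≤ 1 / 2 := by
      rw [← hvu, ← map_sub, LinearIsometryEquiv.norm_map] at hu2
      exact hu2
    obtain ⟨w, hw, hwv⟩ := exists_cap hv1 hv2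
    obtain ⟨i, hi⟩ := hnet w hw
    refine ⟨i, ?_⟩
    rw [← hvu, ← map_sub, LinearIsometryEquiv.norm_map, ← hwv]
    have h2 : ‖nor w - nor (ω i)‖ ≤ ‖-(2 : ℝ) • w - -(2 : ℝ) • ω i‖ := dir_sub_le _ _
    rw [← smul_sub, norm_smul, norm_neg, Real.norm_of_nonneg (by norm_num)] at h2
    calc ‖nor w - nor (ω i)‖ ≤ 2 * ‖w - ω i‖ := h2
      _ ≤ 2 * (S / N) := by gcongr
      _ = 4 * S * δ := by rw [hδ]; field_simp; ring
  · intro i j
    rw [← map_sub, ← map_sub, LinearIsometryEquiv.norm_map, LinearIsometryEquiv.norm_map,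
      ← smul_sub, norm_smul, norm_inv, Real.norm_of_nonneg hR0.le]
    have h3 := nor_sep (ω i) (ω j) (hω i) (hω j)
    rw [inv_mul_le_iff₀ hR0]
    calc ‖a i - a j‖ ≤ L * (N ^ 2 * ‖ω i - ω j‖ + S * N) := ha i j
      _ ≤ L * (N ^ 2 * (4 * ‖nor (ω i) - nor (ω j)‖) + S * N) := by gcongr
      _ ≤ L * (N ^ 2 * (4 * ‖nor (ω i) - nor (ω j)‖) + 8 * (S * N)) := by
          have h9 : S * N ≤ 8 * (S * N) := by nlinarith [mul_pos hS0 hN0]
          exact mul_le_mul_of_nonneg_left (add_le_add le_rfl h9) hL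
      _ = R * (4 * L * (‖nor (ω i) - nor (ω j)‖ + 4 * S * δ)) := by
          rw [hR, hδ]
          field_simp
          ring

end Pool.Agent.Q184.ST
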